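import Mathlib

namespace Pool.Agent.Lib.MP_859259_nt

/-- Central binomial coefficients modulo three: the residue is `0`, or is determined by the
parity of `m`. -/
theorem central_mod_three (m : ℕ) :
    (2 * m).choose m % 3 = 0 ∨ (m % 2 = 0 ∧ (2 * m).choose m % 3 = 1) ∨
      (m % 2 = 1 ∧ (2 * m).choose m % 3 = 2) := by
  induction m using Nat.strong_induction_on with
  | _ m ih =>
    rcases Nat.eq_zero_or_pos m with rfl | hm
    · right; left; simp
    haveI : Fact (Nat.Prime 3) := ⟨Nat.prime_three⟩
    have hL : (2 * m).choose m ≡ ((2 * m) % 3).choose (m % 3) * ((2 * m) / 3).choose (m / 3)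
        [MOD 3] := Choose.choose_modEq_choose_mod_mul_choose_div_nat
    have ih' := ih (m / 3) (Nat.div_lt_self hm (by norm_num))
    unfold Nat.ModEq at hL
    have h3 : m % 3 = 0 ∨ m % 3 = 1 ∨ m % 3 = 2 := by omega
    rcases h3 with h | h | h
    · have h1 : (2 * m) % 3 = 0 := by omega
      have h2 : (2 * m) / 3 = 2 * (m / 3) := by omega
      rw [h, h1, h2] at hL
      simp only [Nat.choose_self, one_mul] at hL
      omega
    · have h1 : (2 * m) % 3 = 2 := by omega
      have h2 : (2 * m) / 3 = 2 * (m / 3) := by omega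
      rw [h, h1, h2] at hL
      simp only [Nat.choose_one_right] at hL
      omega
    · have h1 : (2 * m) % 3 = 1 := by omega
      rw [h, h1] at hL
      have : Nat.choose 1 2 = 0 := by decide
      rw [this, zero_mul] at hL
      omega

theorem four_two (n : ℕ) : (4 * n).choose (2 * n) % 3 ≠ 2 := by
  have h := central_mod_three (2 * n)
  rw [show 2 * (2 * n) = 4 * n by ring] at h
  omega

end Pool.Agent.Lib.MP_859259_nt
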