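import Mathlib

/-! Subgroups of the units of `ZMod p` that contain many values of a Moebius map. -/

namespace Pool.Agent.Lib.MP_859259_nt

open Finset

variable {p : ℕ} [hp : Fact p.Prime] {G : Subgroup (ZMod p)ˣ}

/-- membership of a residue in a subgroup of the units -/
def In (G : Subgroup (ZMod p)ˣ) (r : ZMod p) : Prop := ∃ g ∈ G, (g : ZMod p) = r

theorem In.ne {r : ZMod p} (h : In G r) : r ≠ 0 := by
  obtain ⟨g, -, rfl⟩ := h
  exact g.ne_zero

theorem In.one : In G 1 := ⟨1, G.one_mem, rfl⟩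

theorem In.mul {r s : ZMod p} (h : In G r) (k : In G s) : In G (r * s) := by
  obtain ⟨g, hg, rfl⟩ := h
  obtain ⟨l, hl, rfl⟩ := k
  exact ⟨g * l, G.mul_mem hg hl, rfl⟩

theorem In.inv {r : ZMod p} (h : In G r) : In G r⁻¹ := by
  obtain ⟨g, hg, rfl⟩ := h
  exact ⟨g⁻¹, G.inv_mem hg, Units.val_inv_eq_inv_val g⟩

theorem In.div {r s : ZMod p} (h : In G r) (k : In G s) : In G (r / s) := by
  rw [div_eq_mul_inv]
  exact h.mul k.inv

theorem In.pow {r : ZMod p} (h : In G r) (n : ℕ) : In G (r ^ n) := by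
  induction n with
  | zero => simpa using In.one
  | succ n ih => rw [pow_succ]; exact ih.mul h

theorem In.congr {r s : ZMod p} (h : In G r) (e : r = s) : In G s := e ▸ h

/-- the subgroup is everything -/
def Full (G : Subgroup (ZMod p)ˣ) : Prop := ∀ r : ZMod p, r ≠ 0 → In G r

theorem card_le_G (U : Finset (ZMod p)) (h : ∀ r ∈ U, In G r) : U.card ≤ Nat.card G := by
  classical
  choose f hf hf' using h
  rw [← Fintype.card_coe, ← Nat.card_eq_fintype_card]
  refine Nat.card_le_card_of_injective (fun r : U => (⟨f r.1 r.2, hf _ _⟩ : G)) fun r s e => ?_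
  have := congrArg (fun g : G => ((g : (ZMod p)ˣ) : ZMod p)) e
  exact Subtype.ext (by simpa [hf'] using this)

theorem idx (G : Subgroup (ZMod p)ˣ) : Nat.card G * G.index = p - 1 := by
  rw [G.card_mul_index, Nat.card_eq_fintype_card, ZMod.card_units]

theorem full_of_card (U : Finset (ZMod p)) (h : ∀ r ∈ U, In G r) (hc : p - 1 < 2 * U.card) :
    Full G := by
  have a := card_le_G U h
  have b := idx G
  have c : G.index ≠ 0 := Subgroup.index_ne_zero_of_finite
  have d : G.index = 1 := by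
    by_contra d
    have : 2 ≤ G.index := by omega
    nlinarith
  rw [Subgroup.index_eq_one] at d
  intro r hr
  exact ⟨Units.mk0 r hr, d ▸ Subgroup.mem_top _, rfl⟩

theorem sq_of_card (U : Finset (ZMod p)) (h : ∀ r ∈ U, In G r) (hc : p - 1 ≤ 2 * U.card)
    {r : ZMod p} (hr : r ≠ 0) : In G (r ^ 2) := by
  have a := card_le_G U h
  have b := idx G
  have c : G.index ≠ 0 := Subgroup.index_ne_zero_of_finite
  have c' : 0 < Nat.card G := Nat.card_pos
  have d : G.index ≤ 2 := by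
    by_contra d
    have : 3 ≤ G.index := by omega
    nlinarith
  have e : In G (r ^ G.index) := ⟨Units.mk0 r hr ^ G.index, G.pow_index_mem _, by simp⟩
  rcases (by omega : G.index = 1 ∨ G.index = 2) with k | k
  · rw [k, pow_one] at e
    exact e.pow 2
  · rwa [k] at e

theorem cnt {κ : ZMod p} (ν : ZMod p) (h0 : κ ≠ 0) (h1 : κ ≠ 1) :
    2 * #{x : ZMod p | (κ * x + ν).val < x.val} = p - 1 := by
  have hs : ∀ l : ZMod p, l ≠ 0 → ∑ x : ZMod p, (l * x + ν).val = ∑ x : ZMod p, x.val :=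
    fun l hl => Equiv.sum_comp ((Equiv.mulLeft₀ l hl).trans (Equiv.addRight ν)) ZMod.val
  have h2 : (∑ x : ZMod p, x.val) * 2 = p * (p - 1) := by
    rw [← Finset.sum_range_id_mul_two]
    congr 1
    refine Finset.sum_bij (fun x _ => x.val) (fun x _ => mem_range.2 x.val_lt)
      (fun x _ y _ e => ZMod.val_injective p e)
      (fun k hk => ⟨k, mem_univ _, ZMod.val_cast_of_lt (mem_range.1 hk)⟩) fun _ _ => rfl
  have h3 : ∀ x : ZMod p, (κ * x + ν).val + (if (κ * x + ν).val < x.val then p else 0) =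
      x.val + ((κ - 1) * x + ν).val := fun x => by
    have e : κ * x + ν = x + ((κ - 1) * x + ν) := by ring
    have a := x.val_lt
    have b := ((κ - 1) * x + ν).val_lt
    rw [e]
    by_cases c : x.val + ((κ - 1) * x + ν).val < p
    · rw [ZMod.val_add_of_lt c, if_neg (by omega), add_zero]
    · rw [ZMod.val_add_of_le (by omega), if_pos (by omega)]
      omega
  have h4 := Finset.sum_congr (s₁ := univ) rfl fun x _ => h3 x
  rw [sum_add_distrib, sum_add_distrib, hs _ h0, hs _ (sub_ne_zero.2 h1), ← sum_filter,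
    sum_const, smul_eq_mul] at h4
  refine Nat.eq_of_mul_eq_mul_left hp.out.pos ?_
  rw [← h2]
  linarith

/-- the hypothesis that comes from two adjacent carry states -/
def Line (G : Subgroup (ZMod p)ˣ) (κ ν : ZMod p) : Prop :=
  ∀ x : ZMod p, x ≠ 0 → x.val ≤ (κ * x + ν).val → In G ((κ * x + ν) / x)

theorem Line.ex {κ ν : ZMod p} (h : Line G κ ν) (h0 : κ ≠ 0) (h1 : κ ≠ 1) (hν : ν ≠ 0) :
    ∃ U : Finset (ZMod p), 2 * U.card = p - 1 ∧ (∀ r ∈ U, In G r) ∧ κ ∉ U ∧
      ∀ x : ZMod p, x ≠ 0 → (κ * x + ν) / x ∈ U → x.val ≤ (κ * x + ν).val := by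
  classical
  have inj : ∀ x y : ZMod p, x ≠ 0 → y ≠ 0 → (κ * x + ν) / x = (κ * y + ν) / y → x = y := by
    intro x y hx hy e
    rw [div_eq_div_iff hx hy] at e
    exact mul_left_cancel₀ hν (by linear_combination -e)
  let S : Finset (ZMod p) := (univ.filter fun x => ¬ (κ * x + ν).val < x.val).erase 0
  have hS : ∀ x, x ∈ S ↔ x ≠ 0 ∧ x.val ≤ (κ * x + ν).val := fun x => by simp [S]
  have c1 := cnt ν h0 h1
  have c2 := card_filter_add_card_filter_not (s := (univ : Finset (ZMod p)))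
    (fun x => (κ * x + ν).val < x.val)
  rw [card_univ, ZMod.card] at c2
  have c3 : S.card + 1 = _ := card_erase_add_one (by simp)
  refine ⟨S.image fun x => (κ * x + ν) / x, ?_, ?_, ?_, ?_⟩
  · rw [card_image_of_injOn fun x hx y hy e => inj x y ((hS x).1 hx).1 ((hS y).1 hy).1 e]
    have := hp.out.pos
    omega
  · intro r hr
    obtain ⟨x, hx, rfl⟩ := mem_image.1 hr
    exact h x ((hS x).1 hx).1 ((hS x).1 hx).2
  · intro hr
    obtain ⟨x, hx, e⟩ := mem_image.1 hr
    rw [div_eq_iff ((hS x).1 hx).1] at e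
    exact hν (by linear_combination e)
  · intro x hx hr
    obtain ⟨y, hy, e⟩ := mem_image.1 hr
    rw [← inj y x ((hS y).1 hy).1 hx e]
    exact ((hS y).1 hy).2

theorem Line.sq {κ ν : ZMod p} (h : Line G κ ν) (h0 : κ ≠ 0) (h1 : κ ≠ 1) (hν : ν ≠ 0)
    {r : ZMod p} (hr : r ≠ 0) : In G (r ^ 2) := by
  obtain ⟨U, a, b, -, -⟩ := h.ex h0 h1 hν
  exact sq_of_card U b a.ge hr

theorem mem_of_not_full {U : Finset (ZMod p)} (a : 2 * U.card = p - 1) (b : ∀ r ∈ U, In G r)
    (hn : ¬ Full G) {r : ZMod p} (hr : In G r) : r ∈ U := by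
  classical
  by_contra k
  refine hn (full_of_card (insert r U) (fun s hs => ?_) ?_)
  · rcases mem_insert.1 hs with rfl | hs
    · exact hr
    · exact b s hs
  · rw [card_insert_of_notMem k]
    omega

theorem Line.full1 {κ ν : ZMod p} (h : Line G κ ν) (h1 : κ ≠ 1) (hν : ν ≠ 0) (hκ : In G κ) :
    Full G := by
  by_contra hn
  obtain ⟨U, a, b, c, -⟩ := h.ex hκ.ne h1 hν
  exact c (mem_of_not_full a b hn hκ)

theorem Line.iff {κ ν : ZMod p} (h : Line G κ ν) (h0 : κ ≠ 0) (h1 : κ ≠ 1) (hν : ν ≠ 0)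
    (hn : ¬ Full G) {x : ZMod p} (hx : x ≠ 0) :
    In G ((κ * x + ν) / x) ↔ x.val ≤ (κ * x + ν).val := by
  obtain ⟨U, a, b, -, d⟩ := h.ex h0 h1 hν
  exact ⟨fun k => d x hx (mem_of_not_full a b hn k), h x hx⟩

theorem val_neg_sub (z : ZMod p) : (-z - 1).val + z.val + 1 = p := by
  have a := z.val_lt
  have e : -z - 1 = ((p - 1 - z.val : ℕ) : ZMod p) := by
    rw [Nat.sub_sub, Nat.cast_sub (by omega)]
    simp
    ring
  rw [e, ZMod.val_cast_of_lt (by omega)]
  omega

theorem cast_ne {k : ℕ} (h0 : 0 < k) (h : k < p) : (k : ZMod p) ≠ 0 := fun e => by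
  rw [ZMod.natCast_eq_zero_iff] at e
  exact absurd (Nat.le_of_dvd h0 e) (by omega)

theorem Line.full2 {κ ν : ZMod p} (h : Line G κ ν) (h' : Line G κ (-ν - 1)) (h0 : κ ≠ 0)
    (h1 : κ ≠ 1) (hν : ν ≠ 0) (h7 : 7 ≤ p) : Full G := by
  by_contra hn
  have flip : ∀ x : ZMod p, x ≠ 0 →
      ((-x).val ≤ (κ * -x + (-ν - 1)).val ↔ ¬ x.val ≤ (κ * x + ν).val) := fun x hx => by
    have a := val_neg_sub (κ * x + ν)
    have b := ZMod.neg_val x
    have c := x.val_lt
    rw [if_neg hx] at b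
    rw [show κ * -x + (-ν - 1) = -(κ * x + ν) - 1 by ring]
    omega
  have quo : ∀ x : ZMod p, (κ * -x + (-ν - 1)) / -x = (κ * x + ν + 1) / x := fun x => by
    rw [show κ * -x + (-ν - 1) = -(κ * x + ν + 1) by ring, neg_div_neg_eq]
  by_cases e : -ν - 1 = 0
  · have c := cnt ν h0 h1
    obtain ⟨x, hx⟩ := card_pos.1 (by omega : 0 < #{x : ZMod p | (κ * x + ν).val < x.val})
    have hx' : (κ * x + ν).val < x.val := by simpa using hx
    have x0 : x ≠ 0 := by
      rintro rfl
      simp at hx'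
    have k := h' (-x) (neg_ne_zero.2 x0) ((flip x x0).2 (by omega))
    rw [e, add_zero, mul_div_cancel_right₀ _ (neg_ne_zero.2 x0)] at k
    exact hn (h.full1 h1 hν k)
  have key : ∀ z : ZMod p, z ≠ ν → z ≠ 0 → ¬ In G ((z + 1) / z) := fun z hz z0 k => by
    have x0 : (z - ν) / κ ≠ 0 := div_ne_zero (sub_ne_zero.2 hz) h0
    have ez : κ * ((z - ν) / κ) + ν = z := by field_simp; ring
    have a := h.iff h0 h1 hν hn x0
    have b := h'.iff h0 h1 e hn (neg_ne_zero.2 x0)
    rw [flip _ x0, quo, ← a, ez] at b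
    have c : In G ((z + 1) / ((z - ν) / κ)) ↔ In G (z / ((z - ν) / κ)) :=
      ⟨fun t => (t.div k).congr (by have := k.ne; field_simp; rw [div_self]; intro u; simp [u] at this),
        fun t => (t.mul k).congr (by field_simp)⟩
    tauto
  have n2 : (2 : ZMod p) ≠ 0 := by exact_mod_cast cast_ne (p := p) (k := 2) (by omega) (by omega)
  have n3 : (3 : ZMod p) ≠ 0 := by exact_mod_cast cast_ne (p := p) (k := 3) (by omega) (by omega)
  have n5 : (5 : ZMod p) ≠ 0 := by exact_mod_cast cast_ne (p := p) (k := 5) (by omega) (by omega)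
  have n4 : (4 : ZMod p) ≠ 0 := by exact_mod_cast cast_ne (p := p) (k := 4) (by omega) (by omega)
  have s4 := h.sq h0 h1 hν n2
  by_cases t : 1 / 3 = ν
  · refine key (-4 / 3) (fun u => n5 ?_) (div_ne_zero (neg_ne_zero.2 n4) n3) (s4.inv.congr ?_)
    · rw [← t, div_left_inj' n3] at u
      linear_combination -u
    · field_simp
      norm_num
  · refine key (1 / 3) t (div_ne_zero one_ne_zero n3) (s4.congr ?_)
    field_simp
    norm_num

end Pool.Agent.Lib.MP_859259_nt
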