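import Pool.Agent.Lib.MP_859259_nt.ClsA

/-! Lucas blocks, carry states and the moves between them. -/

namespace Pool.Agent.Lib.MP_859259_nt

variable {p : ℕ} [hp : Fact p.Prime] {G : Subgroup (ZMod p)ˣ}

/-- the binomial coefficient as a residue -/
def ff (p X Y : ℕ) : ZMod p := ((X + Y).choose X : ℕ)

omit hp in
theorem ff_comm (X Y : ℕ) : ff p X Y = ff p Y X := by
  unfold ff
  rw [Nat.choose_symm_add, add_comm]

theorem luc1 (n k : ℕ) :
    (n.choose k : ZMod p) = ((n % p).choose (k % p) : ℕ) * ((n / p).choose (k / p) : ℕ) := by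
  rw [← Nat.cast_mul, ZMod.natCast_eq_natCast_iff]
  exact Choose.choose_modEq_choose_mod_mul_choose_div_nat

theorem luc (k : ℕ) : ∀ n0 k0 n1 k1 : ℕ, n0 < p ^ k → k0 < p ^ k →
    ((n0 + p ^ k * n1).choose (k0 + p ^ k * k1) : ZMod p) =
      (n0.choose k0 : ℕ) * (n1.choose k1 : ℕ) := by
  induction k with
  | zero =>
    intro n0 k0 n1 k1 a b
    obtain rfl : n0 = 0 := by simpa using a
    obtain rfl : k0 = 0 := by simpa using b
    simp
  | succ k ih =>
    intro n0 k0 n1 k1 a b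
    have hp0 := hp.out.pos
    rw [luc1, luc1 n0 k0, pow_succ', mul_assoc, mul_assoc p, Nat.add_mul_mod_self_left,
      Nat.add_mul_mod_self_left, Nat.add_mul_div_left _ _ hp0, Nat.add_mul_div_left _ _ hp0,
      ih _ _ _ _ (Nat.div_lt_of_lt_mul (by rwa [← pow_succ']))
        (Nat.div_lt_of_lt_mul (by rwa [← pow_succ'])), mul_assoc]

theorem ff_block {k X0 Y0 : ℕ} (h : X0 + Y0 < p ^ k) (X1 Y1 : ℕ) :
    ff p (X0 + p ^ k * X1) (Y0 + p ^ k * Y1) = ff p X0 Y0 * ff p X1 Y1 := by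
  unfold ff
  rw [← luc k _ _ _ _ h (by omega)]
  congr 2
  ring

theorem ff_ne {x y : ℕ} (h : x + y < p) : ff p x y ≠ 0 := fun e => by
  unfold ff at e
  rw [ZMod.natCast_eq_zero_iff] at e
  have := (hp.out.dvd_factorial).1 (dvd_trans e ⟨_, by
    rw [← Nat.choose_mul_factorial_mul_factorial (Nat.le_add_right x y), mul_assoc]⟩)
  omega

theorem ff_succ (x y : ℕ) : ff p (x + 1) y * (x + 1) = ff p x y * (x + y + 1) := by
  unfold ff
  have := Nat.add_one_mul_choose_eq (x + y) x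
  rw [show x + 1 + y = x + y + 1 by ring]
  exact_mod_cast congrArg (Nat.cast : ℕ → ZMod p) (this.symm.trans (mul_comm _ _))

/-- `r` is a value of the binomial coefficient in the carry state `(u, v)` -/
def PP (p b c : ℕ) (u v : ℤ) (r : ZMod p) : Prop :=
  ∃ (n : ℤ) (X Y : ℕ), (X : ℤ) = b * n + u ∧ (Y : ℤ) = c * n + v ∧ ff p X Y = r

variable {b c : ℕ} {u v u' v' u'' v'' : ℤ} {r ω μ : ZMod p}

omit hp in
theorem PP.swap (h : PP p b c u v r) : PP p c b v u r := by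
  obtain ⟨n, X, Y, h1, h2, h3⟩ := h
  exact ⟨n, Y, X, h2, h1, ff_comm Y X ▸ h3⟩

/-- a move of weight `μ` from `(u, v)` to `(u', v')` -/
def Mv (p b c : ℕ) [Fact p.Prime] (u v u' v' : ℤ) (μ : ZMod p) : Prop :=
  ∀ r, PP p b c u' v' r → PP p b c u v (μ * r)

theorem Mv.swap (h : Mv p b c u v u' v' μ) : Mv p c b v u v' u' μ :=
  fun r k => (h r k.swap).swap

theorem Mv.trans (h : Mv p b c u v u' v' μ) (k : Mv p b c u' v' u'' v'' ω) :
    Mv p b c u v u'' v'' (μ * ω) := fun r t => mul_assoc μ ω r ▸ h _ (k r t)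

theorem Mv.congr (h : Mv p b c u v u' v' μ) (e : μ = ω) : Mv p b c u v u' v' ω := e ▸ h

theorem mv_block {k X0 Y0 : ℕ} (h : X0 + Y0 < p ^ k) (n0 : ℤ)
    (h1 : b * n0 + u = X0 + p ^ k * u') (h2 : c * n0 + v = Y0 + p ^ k * v') :
    Mv p b c u v u' v' (ff p X0 Y0) := by
  rintro _ ⟨n, X, Y, e1, e2, rfl⟩
  refine ⟨n0 + p ^ k * n, _, _, ?_, ?_, ff_block h X Y⟩
  · push_cast
    linear_combination (p : ℤ) ^ k * e1 - h1
  · push_cast
    linear_combination (p : ℤ) ^ k * e2 - h2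

theorem mv_shift (m : ℤ) (h1 : b * m + u = u') (h2 : c * m + v = v') :
    Mv p b c u v u' v' 1 :=
  (mv_block (k := 0) (X0 := 0) (Y0 := 0) (by simp) m (by simpa) (by simpa)).congr (by simp [ff])

theorem big_pow (hb : (b : ZMod p) ≠ 0) (M : ℤ) :
    ∃ (k : ℕ) (t : ℤ), (p : ℤ) ^ k = 1 + b * t ∧ M ≤ t ∧ 0 ≤ t ∧ k ≠ 0 := by
  have cop : Nat.Coprime p b :=
    (hp.out.coprime_iff_not_dvd).2 fun d => hb ((ZMod.natCast_eq_zero_iff _ _).2 d)
  have b0 : 0 < b := Nat.pos_of_ne_zero fun e => hb (by simp [e])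
  have tp := Nat.totient_pos.2 b0
  set k := b.totient * (b * M.toNat + 1) with hk
  have a : p ^ k ≡ 1 [MOD b] := by simpa [hk, pow_mul] using (Nat.ModEq.pow_totient cop).pow _
  have k1 : b * M.toNat + 1 ≤ k := Nat.le_mul_of_pos_left _ tp
  have k2 : k < p ^ k := Nat.lt_pow_self hp.out.one_lt
  obtain ⟨t, ht⟩ := (Nat.modEq_iff_dvd' (by omega)).1 a.symm
  have e : p ^ k = 1 + b * t := by omega
  have : M.toNat ≤ t := Nat.le_of_mul_le_mul_left (by omega) b0
  exact ⟨k, t, by exact_mod_cast e, by omega, by omega, by omega⟩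

theorem mvX (hb : (b : ZMod p) ≠ 0) (e : ℕ) (he : e ≤ 1) (u v : ℤ)
    (h : ¬ (b : ℤ) ∣ c * u ∨ c * u / b ≤ v) :
    ∃ Y : ℕ, (b : ZMod p) * Y = b * v - c * u ∧ Mv p b c (u + e) v u (c * u / b) (ff p e Y) := by
  have b0 : (0 : ℤ) < b := by exact_mod_cast Nat.pos_of_ne_zero fun e => hb (by simp [e])
  obtain ⟨k, t, h1, h2, h3, h4⟩ := big_pow hb (|v - c * u / b| + 1)
  have d := Int.mul_ediv_add_emod (c * u) b
  have d0 := Int.emod_nonneg (c * u) b0.ne'
  have d1 := Int.emod_lt_of_pos (c * u) b0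
  rw [Int.dvd_iff_emod_eq_zero] at h
  set w := c * u / b
  set ρ := c * u % b
  have a1 := le_abs_self (v - w)
  have a2 := neg_abs_le (v - w)
  have y0 : 0 ≤ ρ * t + v - w := by
    rcases h with h | h
    · have : 1 ≤ ρ := by omega
      nlinarith
    · nlinarith
  obtain ⟨Y, hY⟩ := Int.eq_ofNat_of_zero_le y0
  refine ⟨Y, ?_, mv_block (k := k) ?_ (u * t) ?_ ?_⟩
  · have e1 := congrArg (Int.cast : ℤ → ZMod p) h1
    have e2 := congrArg (Int.cast : ℤ → ZMod p) hY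
    have e3 := congrArg (Int.cast : ℤ → ZMod p) d
    push_cast at e1 e2 e3
    rw [ZMod.natCast_self, zero_pow h4] at e1
    linear_combination -(b : ZMod p) * e2 - (ρ : ZMod p) * e1 - e3
  · have : (e : ℤ) + Y < (p : ℤ) ^ k := by
      have : (e : ℤ) ≤ 1 := by exact_mod_cast he
      nlinarith
    exact_mod_cast this
  · rw [h1]
    ring
  · rw [h1, ← hY]
    linear_combination -t * d

theorem mv0 (hb : (b : ZMod p) ≠ 0) (u v : ℤ) (h : ¬ (b : ℤ) ∣ c * u ∨ c * u / b ≤ v) :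
    Mv p b c u v u (c * u / b) 1 := by
  obtain ⟨Y, -, k⟩ := mvX hb 0 (by omega) u v h
  simpa [ff] using k

theorem mv1 (hb : (b : ZMod p) ≠ 0) (u v : ℤ) (h : ¬ (b : ℤ) ∣ c * u ∨ c * u / b ≤ v) :
    Mv p b c (u + 1) v u (c * u / b) ((b * v - c * u + b) / b) := by
  obtain ⟨Y, e, k⟩ := mvX hb 1 (by omega) u v h
  refine Mv.congr (by simpa using k) ?_
  rw [← e, eq_div_iff hb]
  simp [ff]
  ring

/-- some nonzero value occurs in the state -/
def Ne0 (p b c : ℕ) [Fact p.Prime] (u v : ℤ) : Prop := ∃ r, r ≠ 0 ∧ PP p b c u v r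

theorem Mv.ne0 (h : Mv p b c u v u' v' μ) (hμ : μ ≠ 0) (k : Ne0 p b c u' v') : Ne0 p b c u v := by
  obtain ⟨r, r0, k⟩ := k
  exact ⟨_, mul_ne_zero hμ r0, h r k⟩

/-- the nonzero values in the state lie in the coset of `ω` -/
def Cos (G : Subgroup (ZMod p)ˣ) (b c : ℕ) (u v : ℤ) (ω : ZMod p) : Prop :=
  ω ≠ 0 ∧ ∀ r, r ≠ 0 → PP p b c u v r → In G (r / ω)

theorem Cos.swap (h : Cos G b c u v ω) : Cos G c b v u ω := ⟨h.1, fun r a k => h.2 r a k.swap⟩

theorem Cos.down (h : Cos G b c u v ω) (k : Mv p b c u v u' v' μ) (hμ : μ ≠ 0) :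
    Cos G b c u' v' (ω / μ) :=
  ⟨div_ne_zero h.1 hμ, fun r a t => (h.2 _ (mul_ne_zero hμ a) (k r t)).congr (by
    have := h.1
    field_simp)⟩

theorem Cos.two (h : Cos G b c u v ω) (k : Cos G b c u v μ) (n : Ne0 p b c u v) :
    In G (ω / μ) := by
  obtain ⟨r, r0, t⟩ := n
  exact ((k.2 r r0 t).div (h.2 r r0 t)).congr (by
    have := h.1
    have := k.1
    field_simp)

theorem Cos.up {σ : ZMod p} (h : Cos G b c u v σ) (k : Mv p b c u v u' v' μ) (hμ : μ ≠ 0)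
    (h' : Cos G b c u' v' ω) (n : Ne0 p b c u' v') : Cos G b c u v (μ * ω) :=
  ⟨mul_ne_zero hμ h'.1, fun r a t => ((h.2 r a t).mul ((h.down k hμ).two h' n)).congr (by
    have := h.1
    have := h'.1
    field_simp)⟩

theorem digit (m : ℤ) (x : ℕ) (h : (m : ZMod p) = x) : ∃ w : ℤ, m = x + (p : ℤ) ^ 1 * w := by
  obtain ⟨w, hw⟩ := (ZMod.intCast_eq_intCast_iff_dvd_sub (x : ℤ) m p).1 (by simpa using h.symm)
  exact ⟨w, by linear_combination hw⟩

theorem pair (hb : (b : ZMod p) ≠ 0) (hne : ∀ u v, Ne0 p b c u v) (h : Cos G b c u v ω)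
    (h' : Cos G b c (u + 1) v ω) : Line G ((b + c) / b) ((b * v - c * (u + 1)) / b) := by
  intro x x0 hx
  set z := ((b : ZMod p) + c) / b * x + (b * v - c * (u + 1)) / b with hz
  obtain ⟨s, hs⟩ := Nat.exists_eq_succ_of_ne_zero ((ZMod.val_ne_zero x).2 x0)
  obtain ⟨y, hy⟩ := Nat.exists_eq_add_of_le hx
  have zl := z.val_lt
  have ex : x = s + 1 := by rw [← ZMod.natCast_zmod_val x, hs]; simp
  have ez : z = s + y + 1 := by rw [← ZMod.natCast_zmod_val z, hy, hs]; push_cast; ring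
  obtain ⟨d, hd⟩ := ZMod.intCast_surjective (((s : ZMod p) - (u : ZMod p)) / (b : ZMod p))
  obtain ⟨u', e1⟩ := digit (p := p) (b * d + u) s (by push_cast; rw [hd]; field_simp; ring)
  obtain ⟨v', e2⟩ := digit (p := p) (c * d + v) y (by
    have : (y : ZMod p) = z - x := by rw [ez, ex]; ring
    push_cast
    rw [hd, this, hz, ex]
    field_simp
    ring)
  obtain ⟨r, r0, t⟩ := hne u' v'
  have m1 := mv_block (p := p) (k := 1) (X0 := s) (Y0 := y) (by simp; omega) d e1 e2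
  have m2 := mv_block (p := p) (b := b) (u := u + 1) (u' := u') (k := 1) (X0 := s + 1) (Y0 := y)
    (by simp; omega) d (by push_cast; linear_combination e1) e2
  have n1 : ff p s y ≠ 0 := ff_ne (by omega)
  have n2 : ff p (s + 1) y ≠ 0 := ff_ne (by omega)
  refine ((h'.2 _ (mul_ne_zero n2 r0) (m2 r t)).div (h.2 _ (mul_ne_zero n1 r0) (m1 r t))).congr ?_
  have := h.1
  rw [ez, ex]
  rw [ex] at x0
  field_simp
  linear_combination ff_succ (p := p) s y

theorem PP.mul00 {g : ZMod p} (h : PP p b c u v r) (k : PP p b c 0 0 g) : PP p b c u v (r * g) := by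
  obtain ⟨n, X, Y, h1, h2, rfl⟩ := h
  exact mv_block (k := X + Y) (Nat.lt_pow_self hp.out.one_lt) n (by simp [h1]) (by simp [h2]) g k

/-- the group of nonzero values in the state `(0, 0)` -/
def G0 (p b c : ℕ) [Fact p.Prime] : Subgroup (ZMod p)ˣ where
  carrier := {g | PP p b c 0 0 g}
  one_mem' := ⟨0, 0, 0, by simp, by simp, by simp [ff]⟩
  mul_mem' := fun h k => PP.mul00 h k
  inv_mem' := by
    intro g h
    have a : ∀ n : ℕ, PP p b c 0 0 ((g ^ n : (ZMod p)ˣ) : ZMod p) := fun n => by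
      induction n with
      | zero => exact ⟨0, 0, 0, by simp, by simp, by simp [ff]⟩
      | succ n ih => rw [pow_succ]; exact PP.mul00 ih h
    have e : g⁻¹ = g ^ (orderOf g - 1) := by
      rw [inv_eq_iff_mul_eq_one, ← pow_succ', Nat.sub_add_cancel (orderOf_pos g),
        pow_orderOf_eq_one]
    rw [e]
    exact a _

theorem cos00 : Cos (G0 p b c) b c 0 0 1 :=
  ⟨one_ne_zero, fun r a t => ⟨Units.mk0 r a, t, by simp⟩⟩

theorem all_of_full (h : Full (G0 p b c)) (n : Ne0 p b c u v) (hr : r ≠ 0) : PP p b c u v r := by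
  obtain ⟨s, s0, t⟩ := n
  obtain ⟨g, hg, e⟩ := h (r / s) (div_ne_zero hr s0)
  have := t.mul00 hg
  rwa [e, mul_div_cancel₀ _ s0] at this

end Pool.Agent.Lib.MP_859259_nt
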