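import Pool.Agent.Lib.MP_859259_nt.ClsB

/-! The chain of carry states and the three cases. -/

namespace Pool.Agent.Lib.MP_859259_nt

variable {p : ℕ} [hp : Fact p.Prime] {b c : ℕ}

/-- standing hypotheses -/
structure Hy (p b c : ℕ) : Prop where
  hb : (b : ZMod p) ≠ 0
  hc : (c : ZMod p) ≠ 0
  ha : (b : ZMod p) + c ≠ 0
  le : b ≤ c

theorem Hy.b0 (H : Hy p b c) : (0 : ℤ) < b := by
  exact_mod_cast Nat.pos_of_ne_zero fun e => H.hb (by simp [e])

omit hp in
theorem Hy.bc (H : Hy p b c) : (b : ℤ) ≤ c := by exact_mod_cast H.le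

theorem Hy.k0 (H : Hy p b c) : ((b : ZMod p) + c) / b ≠ 0 := div_ne_zero H.ha H.hb

theorem Hy.k1 (H : Hy p b c) : ((b : ZMod p) + c) / b ≠ 1 := fun e => by
  rw [div_eq_one_iff_eq H.hb, add_eq_left] at e
  exact H.hc e

theorem Hy.half (H : Hy p b c) (j : ℤ) (h : ¬ (b : ℤ) ∣ c * (j + 1)) :
    Mv p b c (j + 1) (c * (j + 1) / b) j (c * (j + 1) / b) 1 := by
  have b0 := H.b0
  have bc := H.bc
  have d := Int.mul_ediv_add_emod (c * (j + 1)) b
  have d0 := Int.emod_nonneg (c * (j + 1)) b0.ne'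
  have d1 := Int.emod_lt_of_pos (c * (j + 1)) b0
  rw [Int.dvd_iff_emod_eq_zero] at h
  have e : (b : ℤ) * (c * (j + 1) / b) / c = j := by
    rw [Int.ediv_eq_iff_of_pos (by omega)]
    constructor
    · nlinarith
    · have : 0 < (c : ℤ) * (j + 1) % b := by omega
      nlinarith
  have := (mv0 (b := c) (c := b) H.hc (c * (j + 1) / b) (j + 1) (Or.inr (by omega))).swap
  rwa [e] at this

theorem Hy.mono (H : Hy p b c) (j : ℤ) : (c : ℤ) * j / b ≤ c * (j + 1) / b :=
  Int.ediv_le_ediv H.b0 (by nlinarith [H.b0, H.bc])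

theorem Hy.step0 (H : Hy p b c) (j : ℤ) (h : ¬ (b : ℤ) ∣ c * (j + 1)) :
    Mv p b c (j + 1) (c * (j + 1) / b) j (c * j / b) 1 :=
  ((H.half j h).trans (mv0 H.hb j _ (Or.inr (H.mono j)))).congr (one_mul 1)

theorem Hy.step1 (H : Hy p b c) (j : ℤ) (h : (b : ℤ) ∣ c * (j + 1)) :
    Mv p b c (j + 1) (c * (j + 1) / b) j (c * j / b) ((b + c) / b) := by
  refine (mv1 H.hb j _ (Or.inr (H.mono j))).congr ?_
  have e := congrArg (Int.cast : ℤ → ZMod p) (Int.mul_ediv_cancel' h)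
  rw [Int.cast_mul, Int.cast_mul, Int.cast_add, Int.cast_natCast, Int.cast_natCast] at e
  rw [e]
  congr 1
  push_cast
  ring

theorem Hy.step (H : Hy p b c) (j : ℤ) :
    ∃ μ, μ ≠ 0 ∧ Mv p b c (j + 1) (c * (j + 1) / b) j (c * j / b) μ := by
  by_cases h : (b : ℤ) ∣ c * (j + 1)
  · exact ⟨_, H.k0, H.step1 j h⟩
  · exact ⟨_, one_ne_zero, H.step0 j h⟩

theorem Hy.per (H : Hy p b c) (j m : ℤ) :
    Mv p b c j (c * j / b) (j + b * m) (c * (j + b * m) / b) 1 :=
  mv_shift m (add_comm _ _) (by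
    rw [show (c : ℤ) * (j + b * m) = c * j + b * (c * m) by ring,
      Int.add_mul_ediv_left _ _ H.b0.ne', add_comm])

theorem Hy.neS (H : Hy p b c) (j : ℤ) : Ne0 p b c j (c * j / b) := by
  have a : ∀ n : ℕ, Ne0 p b c n (c * n / b) := fun n => by
    induction n with
    | zero => exact ⟨1, one_ne_zero, 0, 0, 0, by simp, by simp, by simp [ff]⟩
    | succ n ih =>
      obtain ⟨μ, m0, k⟩ := H.step n
      exact_mod_cast k.ne0 m0 ih
  obtain ⟨n, hn⟩ := Int.eq_ofNat_of_zero_le (a := j + b * |j|) (by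
    nlinarith [H.b0, abs_nonneg j, neg_abs_le j])
  exact (H.per j |j|).ne0 one_ne_zero (hn ▸ a n)

theorem Hy.ne (H : Hy p b c) (u v : ℤ) : Ne0 p b c u v := by
  have b0 := H.b0
  have bc := H.bc
  have a : ∀ u v : ℤ, c * u ≤ b * v → Ne0 p b c u v := fun u v h =>
    (mv0 H.hb u v (Or.inr (Int.ediv_le_of_le_mul b0 (by linarith)))).ne0 one_ne_zero (H.neS u)
  rcases le_total (c * u) (b * v) with h | h
  · exact a u v h
  · refine (mv0 (b := c) (c := b) H.hc v u
      (Or.inr (Int.ediv_le_of_le_mul (by omega) (by linarith)))).swap.ne0 one_ne_zero (a _ _ ?_)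
    exact Int.mul_ediv_self_le (by omega)

theorem Hy.acc (H : Hy p b c) (j : ℤ) : ∃ ω, Cos (G0 p b c) b c j (c * j / b) ω := by
  have a : ∀ n : ℕ, ∃ ω, Cos (G0 p b c) b c (-n) (c * (-n) / b) ω := fun n => by
    induction n with
    | zero => exact ⟨1, by simpa using cos00⟩
    | succ n ih =>
      obtain ⟨ω, h⟩ := ih
      obtain ⟨μ, m0, k⟩ := H.step (-(n + 1 : ℕ))
      rw [show -((n + 1 : ℕ) : ℤ) + 1 = -n by push_cast; ring] at k
      exact ⟨_, h.down k m0⟩
  obtain ⟨n, hn⟩ := Int.eq_ofNat_of_zero_le (a := b * |j| - j) (by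
    nlinarith [H.b0, abs_nonneg j, le_abs_self j])
  obtain ⟨ω, h⟩ := a n
  have k := H.per (-n) |j|
  rw [show -(n : ℤ) + b * |j| = j by rw [← hn]; ring] at k
  exact ⟨_, h.down k one_ne_zero⟩

theorem Hy.pw (H : Hy p b c) {b' : ℕ} (hd : ∀ j : ℕ, b ∣ c * j ↔ b' ∣ j) (n : ℕ) :
    Cos (G0 p b c) b c n (c * n / b) (((b + c) / b) ^ (n / b')) := by
  induction n with
  | zero => simpa using cos00
  | succ n ih =>
    obtain ⟨ω, h⟩ := H.acc (n + 1)
    rw [Nat.succ_div]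
    push_cast
    split_ifs with t
    · rw [pow_succ']
      exact h.up (H.step1 n (by exact_mod_cast (hd _).2 t)) H.k0 ih (H.ne _ _)
    · simpa using h.up (H.step0 n fun s => t ((hd _).1 (by exact_mod_cast s))) one_ne_zero ih
        (H.ne _ _)

theorem Hy.line (H : Hy p b c) (j : ℤ) (h : ¬ (b : ℤ) ∣ c * j) :
    Line (G0 p b c) ((b + c) / b) (-((c * j % b : ℤ) : ZMod p) / b) := by
  obtain ⟨i, rfl⟩ : ∃ i, j = i + 1 := ⟨j - 1, by ring⟩
  obtain ⟨ω, k⟩ := H.acc (i + 1)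
  have := pair H.hb H.ne (by simpa using k.down (H.half i h) one_ne_zero) k
  convert this using 2
  rw [Int.emod_def]
  push_cast
  ring

theorem Hy.ratio (H : Hy p b c) {b' c' : ℕ} (e : b * c' = c * b') :
    In (G0 p b c) ((c : ZMod p) / b) := by
  have b0 := H.b0
  have bc := H.bc
  have e' : (b : ℤ) * c' = c * b' := by exact_mod_cast e
  have q : (c : ℤ) * (b' - 1 + 1) / b = c' := by
    rw [sub_add_cancel, ← e', Int.mul_ediv_cancel_left _ b0.ne']
  have q' : (b : ℤ) * (c' - 1) / c = b' - 1 := by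
    rw [Int.ediv_eq_iff_of_pos (by omega)]
    constructor <;> nlinarith
  obtain ⟨ω, k⟩ := H.acc (b' - 1 + 1)
  have m1 := H.step1 (b' - 1) ⟨c', by rw [e']; ring⟩
  have m2 := (mv1 (b := c) (c := b) H.hc (c' - 1) (b' - 1 + 1) (Or.inr (by omega))).swap
  rw [q', sub_add_cancel (c' : ℤ), ← q] at m2
  have m3 := mv0 (c := c) H.hb (b' - 1) (c * (b' - 1 + 1) / b - 1)
    (Or.inr (Int.ediv_le_of_le_mul b0 (by rw [q]; nlinarith)))
  have ez : (b : ZMod p) * c' = c * b' := by exact_mod_cast congrArg (Nat.cast : ℕ → ZMod p) e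
  have m4 := (m2.trans m3).congr (ω := ((b : ZMod p) + (c : ZMod p)) / (c : ZMod p)) (by
    rw [q, mul_one]
    congr 1
    push_cast
    linear_combination -ez)
  refine ((k.down m4 (div_ne_zero H.ha H.hc)).two (k.down m1 H.k0) (H.ne _ _)).congr ?_
  have := k.1
  have := H.ha
  have := H.hb
  have := H.hc
  field_simp

theorem z5a : (2 : ZMod 5) ≠ 0 := by decide

theorem z5b : (2 : ZMod 5) ^ 2 = 4 := by decide

theorem z5c : ∀ r s : ZMod 5, s = 2 ∨ s = 3 → r ≠ 0 → r = 1 ∨ r = 4 ∨ r = s ∨ r = s * 4 := by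
  decide

theorem z5d : ∀ x : ZMod 5, ¬ x = 2 → 2 + x ≠ 0 → x ≠ 0 → x = 2 * 2 ∨ x = 3 * 2 := by decide

theorem full5 [Fact (Nat.Prime 5)] {G : Subgroup (ZMod 5)ˣ} (h : ∀ r : ZMod 5, r ≠ 0 → In G (r ^ 2)) {s : ZMod 5}
    (hs : In G s) (h2 : s = 2 ∨ s = 3) : Full G := by
  have a : In G 4 := (h 2 z5a).congr z5b
  have b : In G (s * 4) := hs.mul a
  intro r hr
  rcases z5c r s h2 hr with rfl | rfl | rfl | rfl
  exacts [In.one, a, hs, b]

theorem small (h2 : p ≠ 2) (h7 : ¬ 7 ≤ p) : p = 3 ∨ p = 5 := by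
  have := hp.out
  have := this.two_le
  interval_cases p <;> simp_all (config := {decide := true})

theorem Hy.odd (H : Hy p b c) : p ≠ 2 := by
  rintro rfl
  have a := H.hb
  have d := H.hc
  have e := H.ha
  generalize (b : ZMod 2) = x at *
  generalize (c : ZMod 2) = y at *
  revert x y
  decide

theorem caseA {g b' c' : ℕ} (H : Hy p (g * b') (g * c')) (co : Nat.Coprime b' c') (h2 : 2 ≤ b') :
    Full (G0 p (g * b') (g * c')) := by
  have g0 : 0 < g := Nat.pos_of_ne_zero fun e => H.hb (by simp [e])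
  have gz : (g : ZMod p) ≠ 0 := fun e => H.hb (by simp [e])
  have bz : (b' : ZMod p) ≠ 0 := fun e => H.hb (by simp [e])
  have hd : ∀ j : ℕ, g * b' ∣ g * c' * j ↔ b' ∣ j := fun j => by
    rw [mul_assoc, Nat.mul_dvd_mul_iff_left g0, co.dvd_mul_left]
  obtain ⟨j, hj⟩ := Nat.exists_mul_mod_eq_one_of_coprime co.symm h2
  have hj' : (c' : ℤ) * j % b' = 1 := by exact_mod_cast hj.2
  have r1 : ((g * c' : ℕ) : ℤ) * j % (g * b' : ℕ) = g := by
    push_cast
    rw [mul_assoc, Int.mul_emod_mul_of_pos _ _ (by exact_mod_cast g0), hj', mul_one]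
  have r2 : ((g * c' : ℕ) : ℤ) * (-j) % (g * b' : ℕ) = g * (b' - 1) := by
    push_cast
    rw [mul_assoc, Int.mul_emod_mul_of_pos _ _ (by exact_mod_cast g0), mul_neg, Int.neg_emod,
      if_neg (by rw [Int.dvd_iff_emod_eq_zero]; omega), hj']
    simp
  have l1 := H.line j (by rw [Int.dvd_iff_emod_eq_zero, r1]; omega)
  have l2 := H.line (-j) (by
    rw [Int.dvd_iff_emod_eq_zero, r2]
    exact mul_ne_zero (by omega) (by omega))
  rw [r1] at l1
  rw [r2] at l2
  have n0 : -((g : ℤ) : ZMod p) / (g * b' : ℕ) ≠ 0 := div_ne_zero (by simpa using gz) H.hb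
  by_cases h7 : 7 ≤ p
  · refine l1.full2 ?_ H.k0 H.k1 n0 h7
    convert l2 using 1
    push_cast
    field_simp
    ring
  have h35 := small H.odd h7
  by_cases hl : p < 2 * b'
  · obtain ⟨i, i1, i2, i3⟩ : ∃ i, i < b' ∧ b' ≤ p * i ∧ p * i < 2 * b' := by
      rcases h35 with rfl | rfl
      · exact ⟨(b' + 2) / 3, by omega⟩
      · exact ⟨(b' + 4) / 5, by omega⟩
    have a := H.pw hd (p * i)
    have d := H.pw hd i
    rw [Nat.div_eq_of_lt_le (k := 1) (by omega) (by omega), pow_one] at a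
    rw [Nat.div_eq_of_lt i1, pow_zero] at d
    set N := g * c' * (p * i) / (g * b') with hN
    have m := mv_block (p := p) (b := g * b') (c := g * c') (k := 1) (X0 := 0) (Y0 := N % p)
      (u := (p * i : ℕ)) (u' := i) (v := N) (v' := (g * c' * i / (g * b') : ℕ))
      (by simpa using Nat.mod_lt _ hp.out.pos) 0 (by simp) (by
        have : N / p = g * c' * i / (g * b') := by
          rw [hN, Nat.div_div_eq_div_mul, mul_left_comm, mul_comm _ p,
            Nat.mul_div_mul_left _ _ hp.out.pos]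
        rw [← this, mul_zero, zero_add, pow_one]
        exact_mod_cast (Nat.mod_add_div N p).symm)
    have m' : Mv p (g * b') (g * c') (p * i : ℕ) ((g * c' : ℕ) * (p * i : ℕ) / (g * b' : ℕ)) i
        ((g * c' : ℕ) * i / (g * b' : ℕ)) 1 := by
      refine Mv.congr ?_ (show ff p 0 (N % p) = 1 by simp [ff])
      exact_mod_cast m
    exact l1.full1 H.k1 n0 (by simpa using (a.down m' one_ne_zero).two d (H.ne _ _))
  obtain ⟨rfl, rfl⟩ : p = 5 ∧ b' = 2 := by omega
  have rt := H.ratio (b' := 2) (c' := c') (by ring)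
  have ha := H.ha
  have hc := H.hc
  push_cast at rt ha hc
  rw [mul_div_mul_left _ _ gz] at rt
  rw [← mul_add, mul_ne_zero_iff] at ha
  rw [mul_ne_zero_iff] at hc
  by_cases t : (c' : ZMod 5) = 2
  · have a := H.pw hd 2
    obtain ⟨w, hw⟩ := digit (p := 5) (c' : ℤ) 2 (by simpa using t)
    have q : ((g * c' : ℕ) : ℤ) * (2 : ℕ) / (g * 2 : ℕ) = c' := by
      rw [show ((g * c' : ℕ) : ℤ) * (2 : ℕ) = (g * 2 : ℕ) * c' by push_cast; ring,
        Int.mul_ediv_cancel_left _ H.b0.ne']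
    rw [q] at a
    have m := mv_block (p := 5) (b := g * 2) (c := g * c') (k := 1) (X0 := 2) (Y0 := 2)
      (u := (2 : ℕ)) (u' := 0) (v := c') (v' := w) (by norm_num) 0 (by simp) (by simpa using hw)
    have m2 := mv0 (c := g * c') H.hb 0 w (Or.inr (by simp at hw ⊢; omega))
    have m3 := (m.trans m2).congr (ω := 1) (by rw [mul_one]; rfl)
    have := (a.down m3 one_ne_zero).two (by simpa using cos00) (H.ne _ _)
    exact l1.full1 H.k1 n0 (by simpa using this)
  · refine full5 (fun r hr => l1.sq H.k0 H.k1 n0 hr) rt ?_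
    rw [div_eq_iff z5a, div_eq_iff z5a]
    exact z5d _ t ha.2 hc.2

end Pool.Agent.Lib.MP_859259_nt
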