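import Pool.Agent.Lib.MP_859259_nt.ClsC

/-! The cases `b ∣ c`, and the passage to infinitely many `n`. -/

namespace Pool.Agent.Lib.MP_859259_nt

variable {p : ℕ} [hp : Fact p.Prime] {b c : ℕ}

theorem bstep {c' : ℕ} (H : Hy p b (b * c')) {u v : ℤ} {ω : ZMod p} (u0 : 0 ≤ u) (v0 : 0 ≤ v)
    (v1 : v < c') (h : Cos (G0 p b (b * c')) b (b * c') u (v + 1) ω)
    (w : (c' : ZMod p) * u - v + c' ≠ 0) : Cos (G0 p b (b * c')) b (b * c') 0 v 1 := by
  have b0 := H.b0
  have q : (b : ℤ) * v / (b * c' : ℕ) = 0 :=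
    Int.ediv_eq_zero_of_lt (by positivity) (by push_cast; nlinarith)
  have m := (mv1 (b := b * c') (c := b) H.hc v u (Or.inr (by omega))).swap
  rw [q] at m
  have m2 := mv0 (c := b * c') H.hb 0 v (Or.inr (by simpa))
  simpa using (h.down m (div_ne_zero (fun e => mul_ne_zero H.hb w (by
    push_cast at e
    linear_combination e)) H.hc)).up m2 one_ne_zero (by simpa using cos00) (H.ne _ _)

theorem bchain {c' : ℕ} (H : Hy p b (b * c')) (m : ℕ) (h1 : m + 1 ≤ c') (h2 : m + 1 < p) :
    Cos (G0 p b (b * c')) b (b * c') 0 (c' - (m + 1)) 1 := by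
  induction m with
  | zero =>
    obtain ⟨ω, k⟩ := H.acc 1
    rw [mul_one, Nat.cast_mul, Int.mul_ediv_cancel_left _ H.b0.ne'] at k
    refine bstep H (u := 1) (ω := ω) (by omega) (by omega) (by omega) (by simpa using k) ?_
    intro e
    refine H.ha ?_
    push_cast at e ⊢
    linear_combination (b : ZMod p) * e
  | succ m ih =>
    refine bstep H (u := 0) (ω := 1) (by omega) (by omega) (by omega) ?_ ?_
    · convert ih (by omega) (by omega) using 1
      push_cast
      ring
    · intro e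
      refine cast_ne (p := p) (k := m + 2) (by omega) h2 ?_
      push_cast at e ⊢
      linear_combination e

theorem z3a : ∀ x : ZMod 3, x ≠ 0 → 1 + x ≠ 0 → 2 * x + 1 = 0 := by decide

theorem caseB {c' : ℕ} (H : Hy p b (b * c')) (h2 : 2 ≤ c') : Full (G0 p b (b * c')) := by
  classical
  have ha := H.ha
  have hc := H.hc
  push_cast at ha hc
  rw [← mul_one_add, mul_ne_zero_iff] at ha
  rw [mul_ne_zero_iff] at hc
  have p2 := hp.out.two_le
  have po := H.odd
  by_cases hl : c' < p
  · have ln : ∀ m : ℕ, m + 2 ≤ c' → Line (G0 p b (b * c')) ((1 + c') / c') ((m + 1 - c') / c') := by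
      intro m hm
      have a := (bchain H (m + 1) hm (by omega)).swap
      have d := (bchain H m (by omega) (by omega)).swap
      have := pair H.hc (fun u v => (H.ne v u).imp fun r t => ⟨t.1, t.2.swap⟩) a
        (by convert d using 1; push_cast; ring)
      have := ha.1
      have := hc.2
      convert ‹Line _ _ _› using 1
      · push_cast
        field_simp
        ring
      · push_cast
        field_simp
        ring
    have k0 : (1 + c' : ZMod p) / c' ≠ 0 := div_ne_zero ha.2 hc.2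
    have k1 : (1 + c' : ZMod p) / c' ≠ 1 := fun e => by
      rw [div_eq_one_iff_eq hc.2, add_eq_right] at e
      exact one_ne_zero e
    have l1 := ln (c' - 2) (by omega)
    have e1 : (((c' - 2 : ℕ) : ZMod p) + 1 - c') / c' = -1 / c' := by
      rw [Nat.cast_sub h2]
      congr 1
      push_cast
      ring
    rw [e1] at l1
    have n0 : (-1 : ZMod p) / c' ≠ 0 := div_ne_zero (by simp) hc.2
    by_cases h7 : 7 ≤ p
    · refine l1.full2 ?_ k0 k1 n0 h7
      convert ln 0 (by omega) using 1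
      have := hc.2
      field_simp
      push_cast
      ring
    have cp : c' + 1 ≠ p := fun e => ha.2 (by
      rw [← ZMod.natCast_self p, add_comm]
      exact_mod_cast congrArg (Nat.cast : ℕ → ZMod p) e)
    obtain rfl : p = 5 := by
      have := small po h7
      omega
    have rt := H.ratio (b' := 1) (c' := c') (by ring)
    push_cast at rt
    rw [mul_div_cancel_left₀ _ ha.1] at rt
    refine full5 (fun r hr => l1.sq k0 k1 n0 hr) rt ?_
    rcases (by omega : c' = 2 ∨ c' = 3) with rfl | rfl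
    · exact Or.inl rfl
    · exact Or.inr rfl
  obtain ⟨d, hd⟩ := ZMod.intCast_surjective (1 / (b : ZMod p))
  obtain ⟨u', e1⟩ := digit (p := p) (b * d + 0) 1 (by
    push_cast
    rw [hd, add_zero, mul_one_div_cancel ha.1])
  obtain ⟨ρ, r0, t⟩ := H.neS u'
  have key : ∀ w : ZMod p, w ≠ 0 → w ≠ 2 * c' + 1 → In (G0 p b (b * c')) (w * ρ) := by
    intro w w0 w1
    obtain ⟨m, hm⟩ := Nat.exists_eq_succ_of_ne_zero
      ((ZMod.val_ne_zero (2 * (c' : ZMod p) + 1 - w)).2 (sub_ne_zero.2 w1.symm))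
    have ml := (2 * c' + 1 - w).val_lt
    have em : 2 * c' + 1 - w = m + 1 := by
      rw [← ZMod.natCast_zmod_val (2 * (c' : ZMod p) + 1 - w), hm]
      simp
    obtain ⟨N, hN⟩ : ∃ N : ℕ, 2 * c' = N + (m + 1) := ⟨2 * c' - (m + 1), by omega⟩
    have ew : w = (N % p : ℕ) + 1 := by
      have := congrArg (Nat.cast : ℕ → ZMod p) hN
      push_cast at this
      rw [ZMod.natCast_mod]
      linear_combination this - em
    have yl : 1 + N % p < p := by
      have := Nat.mod_lt N hp.out.pos
      have : N % p + 1 ≠ p := fun e => w0 (by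
        rw [ew, ← ZMod.natCast_self p]
        exact_mod_cast congrArg (Nat.cast : ℕ → ZMod p) e)
      omega
    have m1 := mv_block (p := p) (b := b) (c := b * c') (k := 1) (X0 := 1) (Y0 := N % p)
      (v := c' - (m + 1)) (v' := c' * u' + (N / p : ℕ)) (by simpa using yl) d e1 (by
        have a : (N : ℤ) = (N % p : ℕ) + p * (N / p : ℕ) := by
          exact_mod_cast (Nat.mod_add_div N p).symm
        have a' : 2 * (c' : ℤ) = N + (m + 1) := by exact_mod_cast hN
        rw [Nat.cast_mul]
        linear_combination (c' : ℤ) * e1 + a + a')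
    have m2 := mv0 (c := b * c') H.hb u' (c' * u' + (N / p : ℕ)) (Or.inr (by
      rw [Nat.cast_mul, mul_assoc, Int.mul_ediv_cancel_left _ H.b0.ne']
      exact le_add_of_nonneg_right (Int.natCast_nonneg _)))
    have m3 := (m1.trans m2).congr (ω := w) (by rw [ew]; simp [ff, add_comm])
    simpa using (bchain H m (by omega) (by omega)).2 _ (mul_ne_zero w0 r0) (m3 ρ t)
  refine full_of_card (((Finset.univ.erase 0).erase (2 * c' + 1 : ZMod p)).image (· * ρ))
    (fun r hr => ?_) ?_
  · obtain ⟨w, hw, rfl⟩ := Finset.mem_image.1 hr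
    simp only [Finset.mem_erase] at hw
    exact key w hw.2.1 hw.1
  · rw [Finset.card_image_of_injective _ (mul_left_injective₀ r0)]
    have c1 : (Finset.univ.erase (0 : ZMod p)).card = p - 1 := by
      rw [Finset.card_erase_of_mem (Finset.mem_univ _), Finset.card_univ, ZMod.card]
    by_cases h3 : p = 3
    · subst h3
      rw [z3a _ hc.2 ha.2, Finset.erase_idem, c1]
      omega
    · have := Finset.pred_card_le_card_erase (s := Finset.univ.erase (0 : ZMod p))
        (a := 2 * c' + 1)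
      omega

theorem caseC (H : Hy p b b) (h : Odd b ∨ 7 ≤ p) : Full (G0 p b b) := by
  have hb := H.hb
  have po := H.odd
  have e2 : ((b : ZMod p) + b) / b = 2 := by field_simp; ring
  have k0 := H.k0
  have k1 := H.k1
  have pw : ∀ n : ℕ, Cos (G0 p b b) b b n n (2 ^ n) := fun n => by
    have := H.pw (b' := 1) (fun j => by simp) n
    rwa [e2, Int.mul_ediv_cancel_left _ H.b0.ne', Nat.div_one] at this
  rw [e2] at k0 k1
  have a : ∀ x : ℕ, 2 * x < p → In (G0 p b b) (ff p x x / 2 ^ x) := fun x hx =>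
    (pw x).2 _ (ff_ne (by omega)) ⟨0, x, x, by simp, by simp, rfl⟩
  have rt : ∀ x : ℕ, 2 * x + 2 < p → In (G0 p b b) ((2 * x + 1) / (x + 1)) := fun x hx => by
    refine ((a (x + 1) (by omega)).div (a x (by omega))).congr ?_
    have f1 := ff_succ (p := p) x (x + 1)
    have f2 := ff_succ (p := p) x x
    rw [ff_comm x (x + 1)] at f1
    have x0 : (x : ZMod p) + 1 ≠ 0 := by
      exact_mod_cast cast_ne (p := p) (k := x + 1) (by omega) (by omega)
    have n1 : ff p x x ≠ 0 := ff_ne (by omega)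
    push_cast at f1
    field_simp
    linear_combination 2 ^ x * (f1 + 2 * f2)
  have ln : Line (G0 p b b) 2 (-1) := by
    intro x x0 hx
    obtain ⟨s, hs⟩ := Nat.exists_eq_succ_of_ne_zero ((ZMod.val_ne_zero x).2 x0)
    have xl := x.val_lt
    have ex : x = s + 1 := by rw [← ZMod.natCast_zmod_val x, hs]; simp
    have : 2 * s + 2 < p := by
      by_contra t
      have := hp.out.eq_two_or_odd
      have e : 2 * x + -1 = (2 * s + 1 - p : ℕ) := by
        rw [Nat.cast_sub (by omega), ex]
        simp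
        ring
      rw [e, ZMod.val_cast_of_lt (by omega)] at hx
      omega
    refine (rt s this).congr ?_
    rw [ex]
    congr 1
    ring
  have n1 : (-1 : ZMod p) ≠ 0 := by simp
  have sq : ∀ r : ZMod p, r ≠ 0 → In (G0 p b b) (r ^ 2) := fun r hr => ln.sq k0 k1 n1 hr
  refine ln.full1 k1 n1 ?_
  rcases h with ⟨k, hk⟩ | h
  · have t := (pw b).two (cos00.down (mv_shift 1 (by simp) (by simp)) one_ne_zero) (H.ne _ _)
    refine (t.div ((sq 2 k0).pow k)).congr ?_
    conv_lhs => rw [hk, ← pow_mul, pow_succ]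
    field_simp
  have n3 : (3 : ZMod p) ≠ 0 := by exact_mod_cast cast_ne (p := p) (k := 3) (by omega) (by omega)
  have n5 : (5 : ZMod p) ≠ 0 := by exact_mod_cast cast_ne (p := p) (k := 5) (by omega) (by omega)
  by_cases h7 : p = 7
  · subst h7
    exact (sq 3 n3).congr rfl
  have h11 : 11 ≤ p := by
    by_contra t
    have := hp.out
    interval_cases p <;> simp_all (config := {decide := true})
  have r1 := rt 1 (by omega)
  have r2 := rt 2 (by omega)
  have r4 := rt 4 (by omega)
  refine ((sq 3 n3).div ((r1.mul r2).mul r4)).congr ?_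
  push_cast
  rw [show (1 + 1 : ZMod p) = 2 by norm_num, show (2 + 1 : ZMod p) = 3 by norm_num,
    show (4 + 1 : ZMod p) = 5 by norm_num, show (2 * 1 + 1 : ZMod p) = 3 by norm_num,
    show (2 * 2 + 1 : ZMod p) = 5 by norm_num, show (2 * 4 + 1 : ZMod p) = 3 ^ 2 by norm_num]
  field_simp

theorem Hy.full (H : Hy p b c) (h : ¬ (c = b ∧ Even b ∧ (p = 3 ∨ p = 5))) : Full (G0 p b c) := by
  obtain ⟨b', c', co, e1, e2⟩ := Nat.exists_coprime b c
  generalize Nat.gcd b c = g at e1 e2
  rw [mul_comm] at e1 e2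
  subst e1 e2
  have b0 : b' ≠ 0 := fun e => H.hb (by simp [e])
  have c0 : c' ≠ 0 := fun e => H.hc (by simp [e])
  by_cases t : 2 ≤ b'
  · exact caseA H co t
  obtain rfl : b' = 1 := by omega
  rw [mul_one] at H h ⊢
  by_cases s : 2 ≤ c'
  · exact caseB H s
  obtain rfl : c' = 1 := by omega
  rw [mul_one] at H h ⊢
  refine caseC H ?_
  by_contra k
  rw [not_or, Nat.not_odd_iff_even] at k
  exact h ⟨rfl, k.1, small H.odd k.2⟩

/-- the value occurs for arbitrarily large `n` -/
def Oft (p b c : ℕ) (u v : ℤ) (r : ZMod p) : Prop :=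
  ∀ N : ℤ, ∃ (n : ℤ) (X Y : ℕ), N ≤ n ∧ (X : ℤ) = b * n + u ∧ (Y : ℤ) = c * n + v ∧ ff p X Y = r

theorem PP.oft {u v : ℤ} {r : ZMod p} (h : PP p b c u v r) {m : ℕ} (hm : 0 < m) :
    Oft p b c u v (r * ff p (b * m) (c * m)) := by
  obtain ⟨n, X, Y, h1, h2, rfl⟩ := h
  intro N
  have a : X + Y + (N - n).toNat < p ^ (X + Y + (N - n).toNat) := Nat.lt_pow_self hp.out.one_lt
  set k := X + Y + (N - n).toNat
  have a' : p ^ k ≤ p ^ k * m := Nat.le_mul_of_pos_right _ hm
  refine ⟨n + (p ^ k * m : ℕ), _, _, by omega, ?_, ?_, ff_block (k := k) (by omega) _ _⟩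
  · push_cast
    linear_combination h1
  · push_cast
    linear_combination h2

theorem choose_pred (q k j : ℕ) (hq : q + 1 = p ^ k) (hj : j ≤ q) : (q.choose j : ZMod p) ≠ 0 := by
  induction j with
  | zero => simp
  | succ j ih =>
    intro e
    refine ih (by omega) ?_
    have a : (((q + 1).choose (j + 1) : ℕ) : ZMod p) = 0 := by
      rw [ZMod.natCast_eq_zero_iff, hq]
      exact hp.out.dvd_choose_pow (by omega) (by omega)
    rwa [Nat.choose_succ_succ', Nat.cast_add, e, add_zero] at a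

theorem Hy.oft (H : Hy p b c) (h : ¬ (c = b ∧ Even b ∧ (p = 3 ∨ p = 5))) (u v : ℤ) (r : ZMod p) :
    Oft p b c u v r := by
  by_cases hr : r = 0
  · obtain ⟨s, -, t⟩ := H.ne u v
    have x0 : -1 / (b : ZMod p) ≠ 0 := div_ne_zero (by simp) H.hb
    have := t.oft ((ZMod.val_pos).2 x0)
    set m := (-1 / (b : ZMod p)).val with hm
    have em : (m : ZMod p) = -1 / b := ZMod.natCast_zmod_val _
    have e1 : ((b * m % p + 1 : ℕ) : ZMod p) = 0 := by
      rw [Nat.cast_add, ZMod.natCast_mod]
      push_cast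
      rw [em, mul_div_cancel₀ _ H.hb, neg_add_cancel]
    have e2 : (((b * m + c * m) % p + 1 : ℕ) : ZMod p) ≠ 0 := by
      rw [Nat.cast_add, ZMod.natCast_mod]
      push_cast
      rw [em, mul_div_cancel₀ _ H.hb]
      exact fun k => mul_ne_zero H.hc x0 (by linear_combination k)
    have l1 := Nat.mod_lt (b * m) hp.out.pos
    have l2 := Nat.mod_lt (b * m + c * m) hp.out.pos
    have e3 : b * m % p + 1 = p := by
      by_contra k
      exact cast_ne (by omega) (by omega) e1
    have e4 : (b * m + c * m) % p + 1 ≠ p := fun k => e2 (by rw [k, ZMod.natCast_self])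
    rwa [ff, luc1, Nat.choose_eq_zero_of_lt (by omega), Nat.cast_zero, zero_mul, mul_zero,
      ← hr] at this
  obtain ⟨k, t, h1, h2, -, -⟩ := big_pow (p := p) (b := b + c) (by simpa using H.ha) 1
  obtain ⟨m, rfl⟩ := Int.eq_ofNat_of_zero_le (by omega : 0 ≤ t)
  have e : b * m + c * m + 1 = p ^ k := by
    have : p ^ k = 1 + (b + c) * m := by exact_mod_cast h1
    rw [this]
    ring
  have n : ff p (b * m) (c * m) ≠ 0 := choose_pred _ k _ e (by omega)
  have := (all_of_full (H.full h) (H.ne u v) (div_ne_zero hr n)).oft (m := m) (by omega)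
  rwa [div_mul_cancel₀ _ n] at this

theorem oft_all (hb : (b : ZMod p) ≠ 0) (hc : (c : ZMod p) ≠ 0) (ha : (b : ZMod p) + c ≠ 0)
    (h : ¬ (c = b ∧ Even b ∧ (p = 3 ∨ p = 5))) (u v : ℤ) (r : ZMod p) : Oft p b c u v r := by
  rcases le_total b c with k | k
  · exact Hy.oft ⟨hb, hc, ha, k⟩ h u v r
  · intro N
    obtain ⟨n, X, Y, h0, h1, h2, h3⟩ := Hy.oft ⟨hc, hb, add_comm (b : ZMod p) c ▸ ha, k⟩
      (fun t => h ⟨t.1.symm, t.1 ▸ t.2.1, t.2.2⟩) v u r N
    exact ⟨n, Y, X, h0, h2, h1, ff_comm Y X ▸ h3⟩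

theorem central_mod_five (m : ℕ) :
    (2 * m).choose m % 5 = 0 ∨
      (m % 2 = 0 ∧ ((2 * m).choose m % 5 = 1 ∨ (2 * m).choose m % 5 = 4)) ∨
      (m % 2 = 1 ∧ ((2 * m).choose m % 5 = 2 ∨ (2 * m).choose m % 5 = 3)) := by
  induction m using Nat.strong_induction_on with
  | _ m ih =>
    rcases Nat.eq_zero_or_pos m with rfl | hm
    · simp
    have : Fact (Nat.Prime 5) := ⟨Nat.prime_five⟩
    have hL : (2 * m).choose m ≡ ((2 * m) % 5).choose (m % 5) * ((2 * m) / 5).choose (m / 5)
        [MOD 5] := Choose.choose_modEq_choose_mod_mul_choose_div_nat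
    have ih' := ih (m / 5) (Nat.div_lt_self hm (by norm_num))
    unfold Nat.ModEq at hL
    rcases (by omega : m % 5 = 0 ∨ m % 5 = 1 ∨ m % 5 = 2 ∨ m % 5 = 3 ∨ m % 5 = 4) with
      h | h | h | h | h
    · rw [h, show 2 * m % 5 = 0 by omega, show 2 * m / 5 = 2 * (m / 5) by omega,
        show Nat.choose 0 0 = 1 by decide] at hL
      omega
    · rw [h, show 2 * m % 5 = 2 by omega, show 2 * m / 5 = 2 * (m / 5) by omega,
        show Nat.choose 2 1 = 2 by decide] at hL
      omega
    · rw [h, show 2 * m % 5 = 4 by omega, show 2 * m / 5 = 2 * (m / 5) by omega,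
        show Nat.choose 4 2 = 6 by decide] at hL
      omega
    · rw [h, show 2 * m % 5 = 1 by omega, show Nat.choose 1 3 = 0 by decide] at hL
      omega
    · rw [h, show 2 * m % 5 = 3 by omega, show Nat.choose 3 4 = 0 by decide] at hL
      omega

end Pool.Agent.Lib.MP_859259_nt
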