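import Pool.Agent.Lib.MP_859259_nt.ClsD
import Pool.Agent.Lib.MP_859259_nt.Central

/-! Both directions of the classification. -/

namespace Pool.Agent.Lib.MP_859259_nt

theorem cls_pos {b c p : ℕ} (hp : p.Prime) (hb : ¬ p ∣ b) (hc : ¬ p ∣ c) (ha : ¬ p ∣ b + c)
    (h : ¬ (c = b ∧ Even b ∧ (p = 3 ∨ p = 5))) (α β : ℤ) (r : ℕ) :
    {n : ℕ | 0 < n ∧ 0 ≤ (b : ℤ) * n + β ∧ (b : ℤ) * n + β ≤ ((b + c : ℕ) : ℤ) * n + α ∧
      Nat.choose (((b + c : ℕ) : ℤ) * n + α).toNat ((b : ℤ) * n + β).toNat ≡ r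
        [MOD p]}.Infinite := by
  have := Fact.mk hp
  rw [← ZMod.natCast_eq_zero_iff] at hb hc ha
  refine Set.infinite_of_forall_exists_gt fun N => ?_
  obtain ⟨n, X, Y, h0, h1, h2, h3⟩ :=
    oft_all hb hc (by exact_mod_cast ha) h β (α - β) (r : ZMod p) (N + 1)
  obtain ⟨m, rfl⟩ := Int.eq_ofNat_of_zero_le (by omega : 0 ≤ n)
  have e : ((b + c : ℕ) : ℤ) * m + α = (X + Y : ℕ) := by
    push_cast
    linear_combination -h1 - h2
  refine ⟨m, ⟨by omega, by omega, by omega, ?_⟩, by omega⟩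
  rw [e, ← h1, Int.toNat_natCast, Int.toNat_natCast, ← ZMod.natCast_eq_natCast_iff]
  exact h3

theorem never_one {p a k C : ℕ} (hp : p.Prime) (ha : ¬ p ∣ a) (hk : p ∣ k) {D : ℕ}
    (e : a * C = k * D) : ¬ C ≡ 1 [MOD p] := fun h => by
  have d : p ∣ a * C := e ▸ hk.mul_right D
  have := ((hp.dvd_mul).1 d).resolve_left ha
  exact hp.not_dvd_one ((h.dvd_iff dvd_rfl).1 this)

theorem cls_neg {b c p : ℕ} (hp : p.Prime) (b0 : 0 < b) (ha : ¬ p ∣ b + c)
    (H : ∀ (α β : ℤ) (r : ℕ), r < p →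
      {n : ℕ | 0 < n ∧ Nat.choose (((b + c : ℕ) : ℤ) * n + α).toNat ((b : ℤ) * n + β).toNat ≡ r
        [MOD p]}.Infinite) :
    ¬ p ∣ b ∧ ¬ p ∣ c ∧ ¬ (c = b ∧ Even b ∧ (p = 3 ∨ p = 5)) := by
  refine ⟨fun d => ?_, fun d => ?_, ?_⟩
  · obtain ⟨n, n0, hn⟩ := (H (-1) (-1) 1 hp.one_lt).nonempty
    obtain ⟨B, hB⟩ : ∃ B, b * n = B + 1 := ⟨b * n - 1, by have := Nat.mul_pos b0 n0; omega⟩
    have hA : (b + c) * n = B + c * n + 1 := by rw [add_mul, hB]; ring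
    rw [← Nat.cast_mul, ← Nat.cast_mul, hA, hB,
      show (((B + c * n + 1 : ℕ) : ℤ) + -1).toNat = B + c * n by omega,
      show (((B + 1 : ℕ) : ℤ) + -1).toNat = B by omega] at hn
    have e := Nat.add_one_mul_choose_eq (B + c * n) B
    refine never_one hp ha d (D := (B + c * n + 1).choose (B + 1))
      (Nat.eq_of_mul_eq_mul_left n0 ?_) hn
    rw [← mul_assoc, ← mul_assoc, mul_comm n, mul_comm n, hA, hB, e, mul_comm]
  · obtain ⟨n, n0, hn⟩ := (H (-1) 0 1 hp.one_lt).nonempty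
    obtain ⟨A, hA⟩ : ∃ A, (b + c) * n = A + 1 :=
      ⟨(b + c) * n - 1, by have := Nat.mul_pos (by omega : 0 < b + c) n0; omega⟩
    rw [← Nat.cast_mul, ← Nat.cast_mul, hA,
      show (((A + 1 : ℕ) : ℤ) + -1).toNat = A by omega, add_zero, Int.toNat_natCast] at hn
    have e := Nat.choose_mul_succ_eq A (b * n)
    refine never_one hp ha d (D := (A + 1).choose (b * n)) (Nat.eq_of_mul_eq_mul_left n0 ?_) hn
    have e2 : A + 1 - b * n = c * n := by rw [← hA, add_mul]; omega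
    rw [← mul_assoc, ← mul_assoc, mul_comm n, mul_comm n, hA, ← e2, mul_comm, e, mul_comm]
  · rintro ⟨rfl, ⟨k, hk⟩, h35⟩
    obtain ⟨n, -, hn⟩ := (H 0 0 2 (by omega)).nonempty
    rw [← Nat.cast_mul, ← Nat.cast_mul, add_zero, add_zero, Int.toNat_natCast, Int.toNat_natCast,
      show (c + c) * n = 2 * (c * n) by ring] at hn
    have ev : c * n % 2 = 0 := by
      rw [hk, add_mul]
      omega
    unfold Nat.ModEq at hn
    rcases h35 with rfl | rfl
    · have := central_mod_three (c * n)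
      omega
    · have := central_mod_five (c * n)
      omega

end Pool.Agent.Lib.MP_859259_nt
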