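import Mathlib
import Pool.Agent.Lib.MP_859259_nt.Central

namespace Pool.Agent.Lib.MP_859259_nt.OldCounter

theorem old_result :
    ∃ (a b : ℕ) (α β : ℤ) (p r : ℕ),
      0 < b ∧ b < a ∧ p.Prime ∧ Nat.gcd p a = 1 ∧ r < p ∧
      α = 0 ∧ β = 0 ∧ Nat.gcd p (b * (a - b)) = 1 ∧
      {n : ℕ | 0 < n ∧
        Nat.choose ((a : ℤ) * n + α).toNat ((b : ℤ) * n + β).toNat ≡ r [MOD p]}.Finite := by
  refine ⟨4, 2, 0, 0, 3, 2, by norm_num, by norm_num, Nat.prime_three, by norm_num, by norm_num,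
    rfl, rfl, by norm_num, ?_⟩
  convert Set.finite_empty
  ext n
  simp only [Set.mem_setOf_eq, Set.mem_empty_iff_false, iff_false, not_and]
  intro _ h
  have h1 : (((4 : ℕ) : ℤ) * n + 0).toNat = 4 * n := by omega
  have h2 : (((2 : ℕ) : ℤ) * n + 0).toNat = 2 * n := by omega
  rw [h1, h2] at h
  exact Pool.Agent.Lib.MP_859259_nt.four_two n h

end Pool.Agent.Lib.MP_859259_nt.OldCounter
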